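import Pool.Agent.Q4.Kantor.Module

/-!
# The counterexample
-/

open Polynomial

namespace Q4.Kantor

variable {F : Type} [Field F]

theorem Kan_isJordan [CharZero F] : (Kan (PolyDB F)).IsJordan :=
  IsJordan.of_injective (J' := (MM F).splitNull) MM_isJordan (LinearMap.inl F _ _)
    LinearMap.inl_injective
    (fun x => Prod.ext rfl (map_zero (MM F).par).symm)
    (fun x y => Prod.ext rfl (by
      change (0 : EE F) = lft x 0 + rgt 0 y
      rw [map_zero, map_zero, LinearMap.zero_apply, add_zero]))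

variable (F) in
/-- The shift operator. -/
noncomputable def mz : EE F := (taylor (1 : F)).prodMap (taylor (1 : F))

theorem mz_apply (v : F[X] × F[X]) : mz F v = (taylor 1 v.1, taylor 1 v.2) := rfl

theorem mz_ne_zero : mz F ≠ 0 := by
  intro h
  have h1 := congrArg (fun f => (f ((1 : F[X]), (0 : F[X]))).1) h
  simp [mz_apply] at h1

theorem mz_ev : mz F * ev X = ev X * mz F + mz F := by
  refine LinearMap.ext fun v => ?_
  rw [LinearMap.add_apply, Module.End.mul_apply, Module.End.mul_apply, ev_apply, ev_apply, mz_apply,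
    mz_apply]
  refine Prod.ext ?_ ?_
  · simp [taylor_mul]
    ring
  · simp [taylor_mul]
    ring

theorem act_T (w : EE F) (a : F[X]) :
    rgt w (a, 0) = (2⁻¹ : F) • (w * ev a + ev a * w) := by
  rw [rgt_apply, map_zero, mul_zero, zero_mul, add_zero, add_zero]

theorem mz_rel [CharZero F] :
    rgt (rgt (mz F) (X, 0)) (X, 0) - rgt (mz F) (X * X, 0) = (-(4⁻¹ : F)) • mz F := by
  have h : ∀ {B : Type} [Ring B] [Module F B] [IsScalarTower F B B] [SMulCommClass F B B]
      (m t : B), m * t = t * m + m →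
      (2⁻¹ : F) • (((2⁻¹ : F) • (m * t + t * m)) * t + t * ((2⁻¹ : F) • (m * t + t * m))) -
        (2⁻¹ : F) • (m * (t * t) + (t * t) * m) = (-(4⁻¹ : F)) • m := by
    intro B _ _ _ _ m t hmt
    have h4 : (4 : F)⁻¹ = 2⁻¹ * 2⁻¹ := by norm_num
    have h1 : m * t * t = t * t * m + (2 : ℤ) • (t * m) + m := by
      rw [hmt, add_mul, mul_assoc, hmt]
      noncomm_ring
    have h2 : t * m * t = t * t * m + t * m := by
      rw [mul_assoc, hmt]
      noncomm_ring
    rw [smul_mul_assoc, mul_smul_comm, ← smul_add, smul_smul, add_mul, mul_add, ← mul_assoc,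
      ← mul_assoc, ← mul_assoc, h1, h2]
    module
  rw [act_T, act_T, act_T, ← ev_mul_ev]
  exact h _ _ mz_ev

theorem MM_actsAsOne [CharZero F] : (MM F).ActsAsOne ((1 : F[X]), (0 : F[X])) := by
  intro (w : EE F)
  have h : (2⁻¹ : F) • (w + w) = w := by
    rw [← two_smul F, smul_smul]
    norm_num
  constructor
  · change lft (1, 0) w = w
    rw [lft_apply, map_zero, mul_zero, zero_mul, add_zero, add_zero, ev_one, one_mul, mul_one, h]
  · change rgt w (1, 0) = w
    rw [act_T, ev_one, one_mul, mul_one, h]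

theorem Kan_right_right (V : DBMod (PolyDB F)) (hV : V.IsJordanBracket) (v : V.Kan.carrier)
    (a b : F[X]) : V.Kan.right (V.Kan.right v (a, 0)) (b, 0) = V.Kan.right v (a * b, 0) := by
  have hassoc : ∀ (v : V.carrier) (a b : F[X]), V.dotR (V.dotR v a) b = V.dotR v (a * b) := by
    intro v a b
    have h := hV.1.dot_assoc ((0 : F[X]), v) (a, (0 : V.carrier)) (b, (0 : V.carrier))
    have h2 : V.dotL ((0 : F[X]) * a : F[X]) 0 + V.dotR (V.dotL (0 : F[X]) 0 + V.dotR v a) b =
        V.dotL (0 : F[X]) (V.dotL a 0 + V.dotR 0 b) + V.dotR v (a * b) := congrArg Prod.snd h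
    rw [map_zero, map_zero, map_zero, zero_add, zero_add, LinearMap.map_zero₂, zero_add] at h2
    exact h2.trans (by
      rw [map_zero]
      exact zero_add _)
  obtain ⟨v, w⟩ := v
  have h : ∀ (v w : V.carrier) (a : F[X]), V.Kan.right (v, w) (a, 0) = (V.dotR v a, V.dotR w a) := by
    intro v w a
    change (V.dotR v a + V.brR w 0, V.dotR v 0 + V.dotR w a) = _
    rw [map_zero, map_zero, add_zero, zero_add]
  rw [h, h, h, hassoc, hassoc]

theorem main (F : Type) [Field F] [CharZero F] :
    ∃ (A : DBAlg F) (e : A.carrier) (M : SMod (Kan A)),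
      A.IsOne e ∧ A.IsSimple ∧ A.IsJordanBracket ∧
      M.IsJordan ∧ M.ActsAsOne (e, 0) ∧ M.IsIrreducible ∧
      ∀ V : DBMod A, V.IsJordanBracket →
        ¬ ∃ f : M.carrier ≃ₗ[F] V.Kan.carrier, ∀ m x, f (M.right m x) = V.Kan.right (f m) x := by
  obtain ⟨N, Q, i, π, n₀, hi, hπ, hin, hn, hirr, hip, hil, hir, hpp, hpl, hpr⟩ :=
    exists_irreducible (MM F) (mz F) mz_ne_zero
  have h2 : (2 : F) ≠ 0 := two_ne_zero
  refine ⟨PolyDB F, (1 : F[X]), Q, PolyDB_isOne, PolyDB_isSimple,
    ⟨PolyDB_isDotBracket, Kan_isJordan⟩, ?_, ?_, hirr, ?_⟩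
  · exact (SMod.IsJordan.of_injective MM_isJordan i hi hip hil hir).of_surjective h2 π hπ hpp hpl hpr
  · have hN : N.ActsAsOne ((1 : F[X]), (0 : F[X])) := by
      intro n
      constructor
      · apply hi
        rw [hil]
        exact (MM_actsAsOne _).1
      · apply hi
        rw [hir]
        exact (MM_actsAsOne _).2
    intro m
    obtain ⟨n, rfl⟩ := hπ m
    constructor
    · rw [← hpl]
      exact congrArg π (hN n).1
    · rw [← hpr]
      exact congrArg π (hN n).2
  · rintro V hV ⟨f, hf⟩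
    have h1 : Q.right (Q.right (π n₀) ((X : F[X]), (0 : F[X]))) ((X : F[X]), (0 : F[X])) =
        Q.right (π n₀) ((X * X : F[X]), (0 : F[X])) := by
      apply f.injective
      rw [hf, hf, hf]
      exact Kan_right_right V hV _ _ _
    rw [← hpr, ← hpr, ← hpr] at h1
    have h3 : N.right (N.right n₀ ((X : F[X]), (0 : F[X]))) ((X : F[X]), (0 : F[X])) -
        N.right n₀ ((X * X : F[X]), (0 : F[X])) = (-(4⁻¹ : F)) • n₀ := by
      apply hi
      rw [map_sub, map_smul, hir, hir, hir, hin]
      exact mz_rel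
    have h4 := congrArg π h3
    rw [map_sub, h1, sub_self, map_smul] at h4
    have h5 : (-(4⁻¹ : F)) ≠ 0 := by norm_num
    exact hn ((smul_eq_zero.1 h4.symm).resolve_left h5)

end Q4.Kantor
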