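import Pool.Agent.Q4.Kantor.Stmt
import Pool.Agent.Q4.Kantor.Main

/-!
# Conversion to the unbundled definitions
-/

open Polynomial

namespace Q4.JSuper

open Q4.Kantor (SuperSpace SuperAlg SMod PolyDB)

variable {F : Type} [Field F]

/-- Forget linearity. -/
def toAlg (J : SuperAlg F) : Alg F where
  carrier := J.carrier
  par := fun x => J.par x
  mul := fun x y => J.mul x y

theorem sgn_eq (i : ZMod 2) : sgn i = Q4.Kantor.sgn i := rfl

theorem toAlg_isJordan {J : SuperAlg F} (hJ : J.IsJordan) : (toAlg J).IsJordan where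
  super := ⟨map_add J.par, map_smul J.par, J.par_par⟩
  bilin := ⟨LinearMap.map_add₂ J.mul, fun x y y' => map_add (J.mul x) y y',
    LinearMap.map_smul₂ J.mul, fun c x y => map_smul (J.mul x) c y, hJ.even⟩
  comm := hJ.comm
  jordan := hJ.jordan

variable (F) in
/-- `F[t]` with the bracket `{a, b} = a'b - ab'`. -/
noncomputable def PDB : DB F where
  carrier := F[X]
  par := fun x => x
  dot := fun a b => a * b
  br := fun a b => derivative a * b - a * derivative b

theorem Kan_PDB : Kan (PDB F) = toAlg (Q4.Kantor.Kan (PolyDB F)) := rfl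

theorem PDB_isDotBracket [CharZero F] : (PDB F).IsDotBracket where
  super := ⟨fun _ _ => rfl, fun _ _ => rfl, fun _ => rfl⟩
  dot_bilin := ⟨fun (x x' y : F[X]) => add_mul x x' y, fun (x y y' : F[X]) => mul_add x y y',
    fun c (x y : F[X]) => smul_mul_assoc c x y, fun c (x y : F[X]) => mul_smul_comm c x y,
    fun _ _ => rfl⟩
  br_bilin := ⟨fun (x x' y : F[X]) => by
      change derivative (x + x') * y - (x + x') * derivative y =
        (derivative x * y - x * derivative y) + (derivative x' * y - x' * derivative y)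
      rw [map_add]
      ring, fun (x y y' : F[X]) => by
      change derivative x * (y + y') - x * derivative (y + y') =
        (derivative x * y - x * derivative y) + (derivative x * y' - x * derivative y')
      rw [map_add]
      ring,
    fun c (x y : F[X]) => by
      change derivative (c • x) * y - (c • x) * derivative y =
        c • (derivative x * y - x * derivative y)
      rw [derivative_smul, smul_mul_assoc, smul_mul_assoc, smul_sub],
    fun c (x y : F[X]) => by
      change derivative x * (c • y) - x * derivative (c • y) =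
        c • (derivative x * y - x * derivative y)
      rw [derivative_smul, mul_smul_comm, mul_smul_comm, smul_sub],
    fun _ _ => rfl⟩
  dot_assoc := fun (a b c : F[X]) => mul_assoc a b c
  dot_comm := Q4.Kantor.PolyDB_isDotBracket.dot_comm
  br_comm := Q4.Kantor.PolyDB_isDotBracket.br_comm

/-- Forget linearity. -/
noncomputable def toMod (Q : SMod (Q4.Kantor.Kan (PolyDB F))) : Mod (Kan (PDB F)) where
  carrier := Q.carrier
  par := fun x => Q.par x
  left := fun (x : F[X] × F[X]) m => Q.left x m
  right := fun m (x : F[X] × F[X]) => Q.right m x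

theorem toMod_isJordan {Q : SMod (Q4.Kantor.Kan (PolyDB F))} (hQ : Q.IsJordan) :
    (toMod Q).IsJordan where
  left_bilin := ⟨LinearMap.map_add₂ Q.left, fun x y y' => map_add (Q.left x) y y',
    LinearMap.map_smul₂ Q.left, fun c x y => map_smul (Q.left x) c y, by
      intro x m
      have h := hQ.even (x, (0 : Q.carrier)) ((0 : F[X] × F[X]), m)
      have h1 : Q.par (Q.left x m + Q.right 0 0) =
        Q.left ((Q4.Kantor.Kan (PolyDB F)).par x) (Q.par m) + Q.right (Q.par 0)
          ((Q4.Kantor.Kan (PolyDB F)).par 0) := congrArg Prod.snd h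
      rw [map_zero, map_zero, map_zero, map_zero, add_zero] at h1
      refine h1.trans ?_
      rw [map_zero]
      exact add_zero _⟩
  right_bilin := ⟨LinearMap.map_add₂ Q.right, fun x y y' => map_add (Q.right x) y y',
    LinearMap.map_smul₂ Q.right, fun c x y => map_smul (Q.right x) c y, by
      intro m x
      have h := hQ.even ((0 : F[X] × F[X]), m) (x, (0 : Q.carrier))
      have h1 : Q.par (Q.left 0 0 + Q.right m x) =
        Q.left ((Q4.Kantor.Kan (PolyDB F)).par 0) (Q.par 0) + Q.right (Q.par m)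
          ((Q4.Kantor.Kan (PolyDB F)).par x) := congrArg Prod.snd h
      rw [map_zero, map_zero, map_zero, zero_add] at h1
      refine h1.trans ?_
      rw [map_zero]
      exact zero_add _⟩
  jordan := by
    have h : (toMod Q).splitNull = toAlg Q.splitNull := rfl
    rw [h]
    exact toAlg_isJordan hQ

theorem EvenBilin.zero_left {U V W : Space F} {f : U.carrier → V.carrier → W.carrier}
    (h : EvenBilin U V W f) (y : V.carrier) : f 0 y = 0 := by
  have := h.smul_left 0 0 y
  rwa [zero_smul, zero_smul] at this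

theorem EvenBilin.zero_right {U V W : Space F} {f : U.carrier → V.carrier → W.carrier}
    (h : EvenBilin U V W f) (x : U.carrier) : f x 0 = 0 := by
  have := h.smul_right 0 x 0
  rwa [zero_smul, zero_smul] at this

theorem Kan_right_right (V : DBMod (PDB F)) (hV : V.IsJordanBracket) (v : V.Kan.carrier)
    (a b : F[X]) : V.Kan.right (V.Kan.right v (a, (0 : F[X]))) (b, (0 : F[X])) =
      V.Kan.right v (a * b, (0 : F[X])) := by
  have hassoc : ∀ (v : V.carrier) (a b : F[X]), V.dotR (V.dotR v a) b = V.dotR v (a * b) := by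
    intro v a b
    have h := hV.jordan.1.dot_assoc ((0 : F[X]), v) (a, (0 : V.carrier)) (b, (0 : V.carrier))
    have h2 : V.dotL ((0 : F[X]) * a : F[X]) 0 + V.dotR (V.dotL (0 : F[X]) 0 + V.dotR v a) b =
        V.dotL (0 : F[X]) (V.dotL a 0 + V.dotR 0 b) + V.dotR v (a * b) := congrArg Prod.snd h
    have e1 : ∀ a : F[X], V.dotL a 0 = 0 := hV.dotL_bilin.zero_right
    have e2 : ∀ w, V.dotL (0 : F[X]) w = 0 := hV.dotL_bilin.zero_left
    rw [e1, e1, e2, zero_add, zero_add, zero_add] at h2
    exact h2
  obtain ⟨v, w⟩ := v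
  have h : ∀ (v w : V.carrier) (a : F[X]),
      V.Kan.right (v, w) (a, (0 : F[X])) = (V.dotR v a, V.dotR w a) := by
    intro v w a
    change (V.dotR v a + V.brR w (0 : F[X]), V.dotR v (0 : F[X]) + V.dotR w a) = _
    have e1 : V.brR w (0 : F[X]) = 0 := hV.brR_bilin.zero_right w
    have e2 : V.dotR v (0 : F[X]) = 0 := hV.dotR_bilin.zero_right v
    rw [e1, e2, add_zero, zero_add]
  rw [h, h, h, hassoc, hassoc]

theorem main (F : Type) [Field F] [CharZero F] :
    ∃ (A : DB F) (e : A.carrier) (M : Mod (Kan A)),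
      A.IsOne e ∧ A.IsSimple ∧ A.IsJordanBracket ∧
      M.IsJordan ∧ M.ActsAsOne (e, 0) ∧ M.IsIrreducible ∧
      ∀ V : DBMod A, V.IsJordanBracket → ¬ M.RightIso V.Kan := by
  obtain ⟨N, Q, i, π, n₀, hi, hπ, hin, hn, hirr, hip, hil, hir, hpp, hpl, hpr⟩ :=
    Q4.Kantor.exists_irreducible (Q4.Kantor.MM F) (Q4.Kantor.mz F) Q4.Kantor.mz_ne_zero
  have h2 : (2 : F) ≠ 0 := two_ne_zero
  refine ⟨PDB F, (1 : F[X]), toMod Q, fun (a : F[X]) => ⟨one_mul a, mul_one a⟩,
    Q4.Kantor.PolyDB_isSimple,
    ⟨PDB_isDotBracket, toAlg_isJordan Q4.Kantor.Kan_isJordan⟩, ?_, ?_, ?_, ?_⟩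
  · exact toMod_isJordan ((SMod.IsJordan.of_injective Q4.Kantor.MM_isJordan i hi hip hil
      hir).of_surjective h2 π hπ hpp hpl hpr)
  · have hN : N.ActsAsOne ((1 : F[X]), (0 : F[X])) := by
      intro n
      constructor
      · apply hi
        rw [hil]
        exact (Q4.Kantor.MM_actsAsOne _).1
      · apply hi
        rw [hir]
        exact (Q4.Kantor.MM_actsAsOne _).2
    intro m
    obtain ⟨n, rfl⟩ := hπ m
    constructor
    · change Q.left ((1 : F[X]), (0 : F[X])) (π n) = π n
      rw [← hpl]
      exact congrArg π (hN n).1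
    · change Q.right (π n) ((1 : F[X]), (0 : F[X])) = π n
      rw [← hpr]
      exact congrArg π (hN n).2
  · refine ⟨hirr.1, fun S hS => hirr.2 S ⟨fun m hm => (hS m hm).1,
      fun x m hm => ((hS m hm).2 x).1, fun m hm x => ((hS m hm).2 x).2⟩⟩
  · rintro V hV ⟨f, ⟨hfi, -⟩, hfa, hfs, hf⟩
    have hf' : ∀ (m : Q.carrier) (x : F[X] × F[X]), f (Q.right m x) = V.Kan.right (f m) x := hf
    have h1 : Q.right (Q.right (π n₀) ((X : F[X]), (0 : F[X]))) ((X : F[X]), (0 : F[X])) =
        Q.right (π n₀) ((X * X : F[X]), (0 : F[X])) := by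
      apply hfi
      rw [hf', hf', hf']
      exact Kan_right_right V hV _ _ _
    rw [← hpr, ← hpr, ← hpr] at h1
    have h3 : N.right (N.right n₀ ((X : F[X]), (0 : F[X]))) ((X : F[X]), (0 : F[X])) -
        N.right n₀ ((X * X : F[X]), (0 : F[X])) = (-(4⁻¹ : F)) • n₀ := by
      apply hi
      rw [map_sub, map_smul, hir, hir, hir, hin]
      exact Q4.Kantor.mz_rel
    have h4 := congrArg π h3
    rw [map_sub, h1, sub_self, map_smul] at h4
    have h5 : (-(4⁻¹ : F)) ≠ 0 := by norm_num
    exact hn ((smul_eq_zero.1 h4.symm).resolve_left h5)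

end Q4.JSuper
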