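import Mathlib

/-!
# Dot-bracket superalgebras, Kantor doubles and Jordan supermodules

All superspaces are over a field `F` of characteristic different from `2`; a `ℤ/2`-grading is
encoded by its parity automorphism `par`, which is `1` on even and `-1` on odd elements.
-/

namespace Q4.Kantor

/-- A superspace over `F` (of characteristic `≠ 2`): a vector space with an involution `par`, whose
eigenspaces for `1` and `-1` are the even and the odd part. -/
structure SuperSpace (F : Type) [Field F] : Type 1 where
  /-- the underlying vector space -/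
  carrier : Type
  [addCommGroup : AddCommGroup carrier]
  [module : Module F carrier]
  /-- the parity automorphism -/
  par : carrier →ₗ[F] carrier
  par_par : ∀ x, par (par x) = x

attribute [instance] SuperSpace.addCommGroup SuperSpace.module

/-- The sign `(-1)^i` for a parity `i ∈ ℤ/2`. -/
def sgn (i : ZMod 2) : ℤ := if i = 0 then 1 else -1

variable {F : Type} [Field F]

/-- `x` is homogeneous of parity `i`. -/
def SuperSpace.Homog (V : SuperSpace F) (i : ZMod 2) (x : V.carrier) : Prop :=
  V.par x = sgn i • x

/-- A superspace with a bilinear product. -/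
structure SuperAlg (F : Type) [Field F] extends SuperSpace F where
  /-- the product -/
  mul : carrier →ₗ[F] carrier →ₗ[F] carrier

/-- A Jordan superalgebra (in characteristic `≠ 2, 3`): the product is even, supercommutative and
satisfies the linearised Jordan superidentity. -/
structure SuperAlg.IsJordan (J : SuperAlg F) : Prop where
  even : ∀ x y, J.par (J.mul x y) = J.mul (J.par x) (J.par y)
  comm : ∀ i j x y, J.Homog i x → J.Homog j y → J.mul x y = sgn (i * j) • J.mul y x
  jordan : ∀ i j k l a b c d, J.Homog i a → J.Homog j b → J.Homog k c → J.Homog l d →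
    J.mul (J.mul a b) (J.mul c d) + sgn (j * k) • J.mul (J.mul a c) (J.mul b d) +
      sgn (l * (j + k)) • J.mul (J.mul a d) (J.mul b c) =
    J.mul (J.mul (J.mul a b) c) d + sgn (l * (j + k) + j * k) • J.mul (J.mul (J.mul a d) c) b +
      sgn (i * (j + k + l) + k * l) • J.mul (J.mul (J.mul b d) c) a

/-- A superspace with two bilinear products, a dot product and a bracket. -/
structure DBAlg (F : Type) [Field F] extends SuperSpace F where
  /-- the product `a · b` -/
  dot : carrier →ₗ[F] carrier →ₗ[F] carrier
  /-- the bracket `{a, b}` -/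
  br : carrier →ₗ[F] carrier →ₗ[F] carrier

/-- A dot-bracket superalgebra: both products are even, the dot product is associative and
supercommutative, the bracket is super-anticommutative. -/
structure DBAlg.IsDotBracket (A : DBAlg F) : Prop where
  dot_even : ∀ a b, A.par (A.dot a b) = A.dot (A.par a) (A.par b)
  br_even : ∀ a b, A.par (A.br a b) = A.br (A.par a) (A.par b)
  dot_assoc : ∀ a b c, A.dot (A.dot a b) c = A.dot a (A.dot b c)
  dot_comm : ∀ i j a b, A.Homog i a → A.Homog j b → A.dot a b = sgn (i * j) • A.dot b a
  br_comm : ∀ i j a b, A.Homog i a → A.Homog j b → A.br a b = -(sgn (i * j) • A.br b a)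

/-- The parity automorphism `a + b̄ ↦ par a - (par b)¯` of the double `V ⊕ V̄`, the elements of
which are written as pairs `(a, b)`. -/
def dblPar {V : Type} [AddCommGroup V] [Module F V] (par : V →ₗ[F] V) : V × V →ₗ[F] V × V :=
  LinearMap.prodMap par (-par)

/-- The formulas of the Kantor double, for two bilinear maps `dot, br : U × V → W` and the parity
automorphism `par` of `V`:
`(a + a'¯) * (b + b'¯) = (a · b + {a', par b'}) + (a · b' + a' · par b)¯`. -/
def dblMul {U V W : Type} [AddCommGroup U] [Module F U] [AddCommGroup V] [Module F V]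
    [AddCommGroup W] [Module F W] (par : V →ₗ[F] V) (dot br : U →ₗ[F] V →ₗ[F] W) :
    U × U →ₗ[F] V × V →ₗ[F] W × W :=
  LinearMap.mk₂ F
    (fun x y => (dot x.1 y.1 + br x.2 (par y.2), dot x.1 y.2 + dot x.2 (par y.1)))
    (fun x x' y => by ext <;> simp <;> abel)
    (fun c x y => by ext <;> simp)
    (fun x y y' => by ext <;> simp <;> abel)
    (fun c x y => by ext <;> simp)

/-- The Kantor double `Kan(A) = A ⊕ Ā`. -/
def Kan (A : DBAlg F) : SuperAlg F where
  carrier := A.carrier × A.carrier
  par := dblPar A.par
  par_par x := by ext <;> simp [dblPar, A.par_par]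
  mul := dblMul A.par A.dot A.br

/-- The bracket of the dot-bracket superalgebra `A` is Jordan. -/
def DBAlg.IsJordanBracket (A : DBAlg F) : Prop := A.IsDotBracket ∧ (Kan A).IsJordan

/-- `e` is an identity element of `(A, ·)`. -/
def DBAlg.IsOne (A : DBAlg F) (e : A.carrier) : Prop := ∀ a, A.dot e a = a ∧ A.dot a e = a

/-- `A` is simple: it is nonzero and its only ideals (graded or not) for the dot product which are
closed under bracketing with `A` are `0` and `A`. -/
def DBAlg.IsSimple (A : DBAlg F) : Prop :=
  Nontrivial A.carrier ∧ ∀ I : Submodule F A.carrier,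
    (∀ a ∈ I, ∀ b, A.dot a b ∈ I ∧ A.dot b a ∈ I ∧ A.br a b ∈ I ∧ A.br b a ∈ I) →
      I = ⊥ ∨ I = ⊤

/-- A superspace with a left and a right action of the superalgebra `J`. -/
structure SMod (J : SuperAlg F) extends SuperSpace F where
  /-- the left action -/
  left : J.carrier →ₗ[F] carrier →ₗ[F] carrier
  /-- the right action -/
  right : carrier →ₗ[F] J.carrier →ₗ[F] carrier

/-- The split null extension `J ⊕ M`. -/
def SMod.splitNull {J : SuperAlg F} (M : SMod J) : SuperAlg F where
  carrier := J.carrier × M.carrier
  par := LinearMap.prodMap J.par M.par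
  par_par x := by ext <;> simp [J.par_par, M.par_par]
  mul := LinearMap.mk₂ F (fun x y => (J.mul x.1 y.1, M.left x.1 y.2 + M.right x.2 y.1))
    (fun x x' y => by ext <;> simp <;> abel)
    (fun c x y => by ext <;> simp)
    (fun x y y' => by ext <;> simp <;> abel)
    (fun c x y => by ext <;> simp)

/-- `M` is a Jordan supermodule: the split null extension is a Jordan superalgebra. -/
def SMod.IsJordan {J : SuperAlg F} (M : SMod J) : Prop := M.splitNull.IsJordan

/-- `S` is a graded submodule of `M`. -/
def SMod.IsSub {J : SuperAlg F} (M : SMod J) (S : Submodule F M.carrier) : Prop :=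
  (∀ m ∈ S, M.par m ∈ S) ∧ (∀ x, ∀ m ∈ S, M.left x m ∈ S) ∧ (∀ m ∈ S, ∀ x, M.right m x ∈ S)

/-- `M` is irreducible: it is nonzero and its only graded submodules are `0` and `M`. -/
def SMod.IsIrreducible {J : SuperAlg F} (M : SMod J) : Prop :=
  Nontrivial M.carrier ∧ ∀ S : Submodule F M.carrier, M.IsSub S → S = ⊥ ∨ S = ⊤

/-- The element `x` of `J` acts as the identity map on `M`. -/
def SMod.ActsAsOne {J : SuperAlg F} (M : SMod J) (x : J.carrier) : Prop :=
  ∀ m, M.left x m = m ∧ M.right m x = m

/-- A superspace with left and right dot and bracket actions of `A`. -/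
structure DBMod (A : DBAlg F) extends SuperSpace F where
  /-- `a · v` -/
  dotL : A.carrier →ₗ[F] carrier →ₗ[F] carrier
  /-- `v · a` -/
  dotR : carrier →ₗ[F] A.carrier →ₗ[F] carrier
  /-- `{a, v}` -/
  brL : A.carrier →ₗ[F] carrier →ₗ[F] carrier
  /-- `{v, a}` -/
  brR : carrier →ₗ[F] A.carrier →ₗ[F] carrier

/-- The split null extension `A ⊕ V`. -/
def DBMod.splitNull {A : DBAlg F} (V : DBMod A) : DBAlg F where
  carrier := A.carrier × V.carrier
  par := LinearMap.prodMap A.par V.par
  par_par x := by ext <;> simp [A.par_par, V.par_par]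
  dot := LinearMap.mk₂ F (fun x y => (A.dot x.1 y.1, V.dotL x.1 y.2 + V.dotR x.2 y.1))
    (fun x x' y => by ext <;> simp <;> abel)
    (fun c x y => by ext <;> simp)
    (fun x y y' => by ext <;> simp <;> abel)
    (fun c x y => by ext <;> simp)
  br := LinearMap.mk₂ F (fun x y => (A.br x.1 y.1, V.brL x.1 y.2 + V.brR x.2 y.1))
    (fun x x' y => by ext <;> simp <;> abel)
    (fun c x y => by ext <;> simp)
    (fun x y y' => by ext <;> simp <;> abel)
    (fun c x y => by ext <;> simp)

/-- `V` is a dot-bracket supermodule with a Jordan bracket over `A`: the split null extension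
`A ⊕ V` is a dot-bracket superalgebra with a Jordan bracket. -/
def DBMod.IsJordanBracket {A : DBAlg F} (V : DBMod A) : Prop := V.splitNull.IsJordanBracket

/-- The `Kan(A)`-supermodule `Kan(V) = V ⊕ V̄`, given by the same formulas as the Kantor
double. -/
def DBMod.Kan {A : DBAlg F} (V : DBMod A) : SMod (Kan A) where
  carrier := V.carrier × V.carrier
  par := dblPar V.par
  par_par x := by ext <;> simp [dblPar, V.par_par]
  left := dblMul V.par V.dotL V.brL
  right := dblMul A.par V.dotR V.brR

end Q4.Kantor
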