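import Pool.Agent.Q4.Kantor.Special

/-!
# The example `A = F[t]`, `{a, b} = a'b - ab'`
-/

open Polynomial

namespace Q4.Kantor

variable (F : Type) [Field F]

/-- `F[t]` with the bracket `{a, b} = a'b - ab'`. -/
noncomputable def PolyDB : DBAlg F where
  carrier := F[X]
  par := LinearMap.id
  par_par _ := rfl
  dot := LinearMap.mul F F[X]
  br := LinearMap.mk₂ F (fun a b => derivative a * b - a * derivative b)
    (fun a b c => by rw [map_add]; ring)
    (fun c a b => by
      rw [derivative_smul, smul_mul_assoc, smul_mul_assoc, smul_sub])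
    (fun a b c => by rw [map_add]; ring)
    (fun c a b => by
      rw [derivative_smul, mul_smul_comm, mul_smul_comm, smul_sub])

variable {F}

theorem PolyDB_dot (a b : F[X]) : (PolyDB F).dot a b = a * b := rfl
theorem PolyDB_br (a b : F[X]) : (PolyDB F).br a b = derivative a * b - a * derivative b := rfl
theorem PolyDB_par (a : F[X]) : (PolyDB F).par a = a := rfl

theorem eq_zero_of_homog_one [CharZero F] {a : F[X]} (h : (PolyDB F).Homog 1 a) : a = 0 := by
  have h1 : a = sgn 1 • a := h
  rw [sgn_one, neg_smul, one_smul] at h1
  exact self_eq_neg.1 h1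

theorem PolyDB_isDotBracket [CharZero F] : (PolyDB F).IsDotBracket where
  dot_even _ _ := rfl
  br_even _ _ := rfl
  dot_assoc := fun (a b c : F[X]) => mul_assoc a b c
  dot_comm := by
    intro i j (a : F[X]) (b : F[X]) ha hb
    change a * b = sgn (i * j) • (b * a)
    rcases zmod2 i with rfl | rfl
    · rw [zero_mul, sgn_zero, one_smul]
      exact mul_comm a b
    · have := eq_zero_of_homog_one ha
      subst this
      rw [mul_zero, zero_mul, smul_zero]
  br_comm := by
    intro i j (a : F[X]) (b : F[X]) ha hb
    change derivative a * b - a * derivative b =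
      -(sgn (i * j) • (derivative b * a - b * derivative a))
    rcases zmod2 i with rfl | rfl
    · rw [zero_mul, sgn_zero, one_smul]
      ring
    · have := eq_zero_of_homog_one ha
      subst this
      simp

theorem PolyDB_isOne : (PolyDB F).IsOne (1 : F[X]) :=
  fun (a : F[X]) => ⟨one_mul a, mul_one a⟩

theorem PolyDB_isSimple [CharZero F] : (PolyDB F).IsSimple := by
  refine ⟨inferInstanceAs (Nontrivial F[X]), ?_⟩
  intro I hI
  have hmul : ∀ a b : F[X], a ∈ (I : Submodule F F[X]) → a * b ∈ (I : Submodule F F[X]) :=
    fun a b ha => (hI a ha b).1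
  have hder : ∀ a : F[X], a ∈ (I : Submodule F F[X]) → derivative a ∈ (I : Submodule F F[X]) := by
    intro a ha
    have h := (hI a ha (1 : F[X])).2.2.1
    have h2 : (PolyDB F).br a (1 : F[X]) = derivative a := by
      rw [PolyDB_br]
      simp
    rwa [h2] at h
  have key : ∀ n : ℕ, ∀ a : F[X], a.natDegree = n → a ≠ 0 → a ∈ (I : Submodule F F[X]) →
      (1 : F[X]) ∈ (I : Submodule F F[X]) := by
    intro n
    induction n using Nat.strong_induction_on with
    | _ n ih =>
      intro a ha h0 haI
      rcases Nat.eq_zero_or_pos n with rfl | hn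
      · rw [Polynomial.natDegree_eq_zero] at ha
        obtain ⟨c, rfl⟩ := ha
        have hc : c ≠ 0 := fun h => h0 (by rw [h, C_0])
        have := hmul _ (C c⁻¹) haI
        rwa [← C_mul, mul_inv_cancel₀ hc, C_1] at this
      · have hd : (derivative a).natDegree < n := by
          rw [← ha]
          exact natDegree_derivative_lt (by omega)
        refine ih _ hd (derivative a) rfl ?_ (hder a haI)
        intro h
        rw [Polynomial.derivative_eq_zero] at h
        obtain ⟨c, hc⟩ := natDegree_eq_zero.1 h
        rw [← hc, natDegree_C] at ha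
        omega
  by_cases h : (I : Submodule F F[X]) = ⊥
  · exact Or.inl h
  · right
    obtain ⟨a, haI, h0⟩ := Submodule.exists_mem_ne_zero_of_ne_bot h
    have h1 := key _ a rfl h0 haI
    rw [eq_top_iff]
    intro b _
    have := hmul 1 b h1
    rwa [one_mul] at this

end Q4.Kantor
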