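import Pool.Agent.Q4.Kantor.Example

/-!
# The special bimodule
-/

open Polynomial

namespace Q4.Kantor

variable (F : Type) [Field F]

/-- The algebra of operators on `F[t]²`. -/
abbrev EE : Type := Module.End F (F[X] × F[X])

variable {F}

/-- `(p, q) ↦ (a p, a q)`. -/
noncomputable def ev : F[X] →ₗ[F] EE F :=
  LinearMap.mk₂ F (fun a v => (a * v.1, a * v.2))
    (fun a b v => by ext1 <;> simp [add_mul])
    (fun c a v => by ext1 <;> simp)
    (fun a v w => by ext1 <;> simp [mul_add])
    (fun c a v => by ext1 <;> simp)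

/-- `(p, q) ↦ (4 b q' + 2 b' q, - b p)`. -/
noncomputable def od : F[X] →ₗ[F] EE F :=
  LinearMap.mk₂ F (fun b v => (4 * b * derivative v.2 + 2 * derivative b * v.2, - (b * v.1)))
    (fun a b v => by ext1 <;> simp <;> ring)
    (fun c a v => by
      refine Prod.ext ?_ ?_
      · change 4 * (c • a) * derivative v.2 + 2 * derivative (c • a) * v.2 =
          c • (4 * a * derivative v.2 + 2 * derivative a * v.2)
        simp only [derivative_smul, smul_add, mul_smul_comm, smul_mul_assoc]
      · simp)
    (fun a v w => by ext1 <;> simp <;> ring)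
    (fun c a v => by
      refine Prod.ext ?_ ?_
      · change 4 * a * derivative (c • v.2) + 2 * derivative a * (c • v.2) =
          c • (4 * a * derivative v.2 + 2 * derivative a * v.2)
        simp only [derivative_smul, smul_add, mul_smul_comm]
      · simp)

theorem ev_apply (a : F[X]) (v : F[X] × F[X]) : ev a v = (a * v.1, a * v.2) := rfl
theorem od_apply (b : F[X]) (v : F[X] × F[X]) : od b v =
    (4 * b * derivative v.2 + 2 * derivative b * v.2, - (b * v.1)) := rfl

theorem ev_mul_ev (a b : F[X]) : ev a * ev b = ev (a * b) := by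
  refine LinearMap.ext fun v => ?_
  rw [Module.End.mul_apply, ev_apply, ev_apply, ev_apply]
  ext1 <;> simp only <;> ring

theorem ev_one : ev (1 : F[X]) = 1 := by
  refine LinearMap.ext fun v => ?_
  rw [ev_apply, one_mul, one_mul]
  rfl

theorem ev_od (a b : F[X]) : ev a * od b + od b * ev a = 2 • od (a * b) := by
  refine LinearMap.ext fun v => ?_
  rw [LinearMap.add_apply, Module.End.mul_apply, Module.End.mul_apply, LinearMap.smul_apply, ev_apply,
    ev_apply, od_apply, od_apply, od_apply]
  ext1
  · simp only [derivative_mul, Prod.fst_add, Prod.smul_fst]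
    rw [nsmul_eq_mul]
    push_cast
    ring
  · simp only [Prod.snd_add, Prod.smul_snd]
    rw [nsmul_eq_mul]
    push_cast
    ring

theorem od_od (a b : F[X]) :
    od a * od b - od b * od a = 2 • ev (derivative a * b - a * derivative b) := by
  refine LinearMap.ext fun v => ?_
  rw [LinearMap.sub_apply, Module.End.mul_apply, Module.End.mul_apply, LinearMap.smul_apply, ev_apply,
    od_apply, od_apply, od_apply, od_apply]
  ext1
  · simp only [derivative_mul, derivative_neg, Prod.fst_sub, Prod.smul_fst]
    rw [nsmul_eq_mul]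
    push_cast
    ring
  · simp only [Prod.snd_sub, Prod.smul_snd]
    rw [nsmul_eq_mul]
    push_cast
    ring

/-- The involution `(p, q) ↦ (p, -q)`. -/
noncomputable def ss : EE F := LinearMap.prodMap LinearMap.id (-LinearMap.id)

theorem ss_mul_ss : (ss : EE F) * ss = 1 := by
  refine LinearMap.ext fun v => ?_
  rw [Module.End.mul_apply]
  simp [ss]

theorem ss_ev (a : F[X]) : ss * ev a * ss = ev a := by
  refine LinearMap.ext fun v => ?_
  rw [Module.End.mul_apply, Module.End.mul_apply, ev_apply, ev_apply]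
  simp [ss]

theorem ss_od (a : F[X]) : ss * od a * ss = - od a := by
  refine LinearMap.ext fun v => ?_
  rw [Module.End.mul_apply, Module.End.mul_apply, LinearMap.neg_apply, od_apply, od_apply]
  simp [ss]
  ring

/-- The parity automorphism of the operator algebra. -/
noncomputable def parE : EE F →ₗ[F] EE F :=
  (LinearMap.mulLeft F ss).comp (LinearMap.mulRight F ss)

theorem parE_apply (w : EE F) : parE w = ss * (w * ss) := rfl

theorem parE_mul (v w : EE F) : parE (v * w) = parE v * parE w := by
  rw [parE_apply, parE_apply, parE_apply]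
  calc ss * (v * w * ss) = ss * v * 1 * w * ss := by noncomm_ring
    _ = ss * v * (ss * ss) * w * ss := by rw [ss_mul_ss]
    _ = _ := by noncomm_ring

theorem parE_ev (a : F[X]) : parE (ev a) = ev a := by rw [parE_apply, ← mul_assoc, ss_ev]
theorem parE_od (a : F[X]) : parE (od a) = - od a := by rw [parE_apply, ← mul_assoc, ss_od]

theorem parE_parE (w : EE F) : parE (parE w) = w := by
  rw [parE_apply, parE_apply]
  calc ss * (ss * (w * ss) * ss) = (ss * ss) * w * (ss * ss) := by noncomm_ring
    _ = w := by rw [ss_mul_ss, one_mul, mul_one]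

/-- The left Jordan action. -/
noncomputable def lft : (F[X] × F[X]) →ₗ[F] EE F →ₗ[F] EE F :=
  LinearMap.mk₂ F (fun x w => (2⁻¹ : F) • (ev x.1 * w + w * ev x.1 + od x.2 * w + parE w * od x.2))
    (fun x y w => by
      simp only [Prod.fst_add, Prod.snd_add, map_add, add_mul, mul_add, smul_add]; abel)
    (fun c x w => by
      simp only [Prod.smul_fst, Prod.smul_snd, map_smul, smul_mul_assoc, mul_smul_comm, smul_add,
        smul_comm c])
    (fun x v w => by simp only [map_add, add_mul, mul_add, smul_add]; abel)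
    (fun c x w => by
      simp only [map_smul, smul_mul_assoc, mul_smul_comm, smul_add, smul_comm c])

/-- The right Jordan action. -/
noncomputable def rgt : EE F →ₗ[F] (F[X] × F[X]) →ₗ[F] EE F :=
  LinearMap.mk₂ F (fun w x => (2⁻¹ : F) • (w * ev x.1 + ev x.1 * w + w * od x.2 + od x.2 * parE w))
    (fun x v w => by simp only [map_add, add_mul, mul_add, smul_add]; abel)
    (fun c x w => by
      simp only [map_smul, smul_mul_assoc, mul_smul_comm, smul_add, smul_comm c])
    (fun x y w => by
      simp only [Prod.fst_add, Prod.snd_add, map_add, add_mul, mul_add, smul_add]; abel)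
    (fun c x w => by
      simp only [Prod.smul_fst, Prod.smul_snd, map_smul, smul_mul_assoc, mul_smul_comm, smul_add,
        smul_comm c])

theorem lft_apply (x : F[X] × F[X]) (w : EE F) : lft x w =
    (2⁻¹ : F) • (ev x.1 * w + w * ev x.1 + od x.2 * w + parE w * od x.2) := rfl

theorem rgt_apply (x : F[X] × F[X]) (w : EE F) : rgt w x =
    (2⁻¹ : F) • (w * ev x.1 + ev x.1 * w + w * od x.2 + od x.2 * parE w) := rfl

variable (F) in
/-- The operator algebra as a supermodule over the Kantor double. -/
noncomputable def MM : SMod (Kan (PolyDB F)) where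
  carrier := EE F
  par := parE
  par_par := parE_parE
  left := lft
  right := rgt

/-- The embedding of the Kantor double in the operator algebra. -/
noncomputable def phi : F[X] × F[X] →ₗ[F] EE F := ev.coprod od

theorem phi_apply (x : F[X] × F[X]) : phi x = ev x.1 + od x.2 := rfl

theorem phi_injective : Function.Injective (phi : F[X] × F[X] →ₗ[F] EE F) := by
  rw [injective_iff_map_eq_zero]
  intro x hx
  have h := congrArg (fun f => f ((1 : F[X]), (0 : F[X]))) hx
  simp only [phi_apply, LinearMap.add_apply, ev_apply, od_apply, LinearMap.zero_apply] at h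
  have h1 := congrArg Prod.fst h
  have h2 := congrArg Prod.snd h
  simp at h1 h2
  exact Prod.ext h1 h2

/-- The embedding of the split null extension in the algebra of `2 × 2` matrices over the operator
algebra. -/
noncomputable def theta : (F[X] × F[X]) × EE F →ₗ[F] Matrix (Fin 2) (Fin 2) (EE F) where
  toFun z := (2⁻¹ : F) • !![phi z.1, z.2; 0, phi z.1]
  map_add' a b := by
    rw [← smul_add]
    congr 1
    refine Matrix.ext fun i j => ?_
    fin_cases i <;> fin_cases j <;> simp
  map_smul' c a := by
    rw [RingHom.id_apply, smul_comm]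
    congr 1
    refine Matrix.ext fun i j => ?_
    fin_cases i <;> fin_cases j <;> simp

theorem theta_apply (z : (F[X] × F[X]) × EE F) :
    theta z = (2⁻¹ : F) • !![phi z.1, z.2; 0, phi z.1] := rfl

theorem theta_injective [CharZero F] : Function.Injective (theta (F := F)) := by
  intro a b hab
  rw [theta_apply, theta_apply] at hab
  have h := smul_right_injective _ (inv_ne_zero (two_ne_zero (α := F))) hab
  have h1 : phi a.1 = phi b.1 := congrFun (congrFun h 0) 0
  have h2 : a.2 = b.2 := congrFun (congrFun h 0) 1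
  exact Prod.ext (phi_injective h1) h2

theorem Kan_mul (x y : F[X] × F[X]) : (Kan (PolyDB F)).mul x y =
    (x.1 * y.1 + (derivative x.2 * y.2 - x.2 * derivative y.2), x.1 * y.2 + x.2 * y.1) := rfl

theorem Kan_par (x : F[X] × F[X]) : (Kan (PolyDB F)).par x = (x.1, - x.2) := rfl

theorem two_half [CharZero F] (z : EE F) : 2 • (2⁻¹ : F) • z = z := by
  rw [← Nat.cast_smul_eq_nsmul F, smul_smul]
  norm_num

/-- The parity condition, in coordinates. -/
def Par (i : ZMod 2) (z : (F[X] × F[X]) × EE F) : Prop :=
  (i = 0 ∧ z.1.2 = 0 ∧ parE z.2 = z.2) ∨ (i = 1 ∧ z.1.1 = 0 ∧ parE z.2 = - z.2)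

theorem par_of_homog [CharZero F] {i : ZMod 2} {z : (F[X] × F[X]) × EE F}
    (h : (MM F).splitNull.Homog i z) : Par i z := by
  unfold SuperSpace.Homog at h
  rcases zmod2 i with rfl | rfl
  · left
    rw [sgn_zero, one_smul] at h
    have h1 : - z.1.2 = z.1.2 := congrArg (fun z : (F[X] × F[X]) × EE F => z.1.2) h
    have h2 : parE z.2 = z.2 := congrArg (fun z : (F[X] × F[X]) × EE F => z.2) h
    exact ⟨rfl, neg_eq_self.1 h1, h2⟩
  · right
    rw [sgn_one, neg_smul, one_smul] at h
    have h1 : z.1.1 = - z.1.1 := congrArg (fun z : (F[X] × F[X]) × EE F => z.1.1) h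
    have h2 : parE z.2 = - z.2 := congrArg (fun z : (F[X] × F[X]) × EE F => z.2) h
    exact ⟨rfl, self_eq_neg.1 h1, h2⟩

/-- The product of the split null extension, in coordinates. -/
noncomputable def prd (x y : (F[X] × F[X]) × EE F) : (F[X] × F[X]) × EE F :=
  ((x.1.1 * y.1.1 + (derivative x.1.2 * y.1.2 - x.1.2 * derivative y.1.2),
    x.1.1 * y.1.2 + x.1.2 * y.1.1), lft x.1 y.2 + rgt x.2 y.1)

theorem phi_prd {i j : ZMod 2} {x y : (F[X] × F[X]) × EE F} (hx : Par i x) (hy : Par j y) :
    2 • phi (prd x y).1 = phi x.1 * phi y.1 + sgn (i * j) • (phi y.1 * phi x.1) := by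
  obtain ⟨⟨a, b⟩, w⟩ := x
  obtain ⟨⟨c, d⟩, v⟩ := y
  rcases hx with ⟨rfl, h1, -⟩ | ⟨rfl, h1, -⟩ <;> rcases hy with ⟨rfl, h2, -⟩ | ⟨rfl, h2, -⟩ <;>
    simp only at h1 h2 <;> subst h1 <;> subst h2 <;>
    simp only [phi_apply, prd, map_zero, add_zero, zero_add, mul_zero, zero_mul, mul_one, sgn_zero,
      sgn_one, one_smul, neg_smul, sub_self]
  · rw [ev_mul_ev, ev_mul_ev, mul_comm c a, two_smul]
  · rw [ev_od]
  · rw [mul_comm b c, ← ev_od, add_comm]
  · rw [← od_od, sub_eq_add_neg]

theorem ring_id {B : Type} [Ring B] (b d v w : B) :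
    b * v + -v * b + (w * d + d * -w) = b * v + w * d + -(d * w + v * b) := by
  noncomm_ring

theorem act_prd [CharZero F] {i j : ZMod 2} {x y : (F[X] × F[X]) × EE F} (hx : Par i x)
    (hy : Par j y) : 2 • (prd x y).2 = phi x.1 * y.2 + x.2 * phi y.1 +
      sgn (i * j) • (phi y.1 * x.2 + y.2 * phi x.1) := by
  obtain ⟨⟨a, b⟩, w⟩ := x
  obtain ⟨⟨c, d⟩, v⟩ := y
  have h : 2 • (prd ((a, b), w) ((c, d), v)).2 =
      (ev a * v + v * ev a + od b * v + parE v * od b) +
      (w * ev c + ev c * w + w * od d + od d * parE w) := by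
    change 2 • (lft (a, b) v + rgt w (c, d)) = _
    rw [smul_add, lft_apply, rgt_apply, two_half, two_half]
  rw [h]
  rcases hx with ⟨rfl, h1, h3⟩ | ⟨rfl, h1, h3⟩ <;> rcases hy with ⟨rfl, h2, h4⟩ | ⟨rfl, h2, h4⟩ <;>
    simp only at h1 h2 h3 h4 <;> subst h1 <;> subst h2 <;> rw [h3, h4] <;>
    simp only [phi_apply, map_zero, add_zero, zero_add, mul_zero, zero_mul, mul_one, sgn_zero,
      sgn_one, one_smul, neg_smul]
  · abel
  · abel
  · abel
  · exact ring_id _ _ _ _

theorem mat_mul {B : Type} [Ring B] (p q v w : B) :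
    !![p, w; 0, p] * !![q, v; 0, q] = !![p * q, p * v + w * q; 0, p * q] := by
  rw [Matrix.mul_fin_two]
  simp

theorem mat_smul {B : Type} [Ring B] [Module F B] (c : F) (n : ℤ) (p q v w : B) :
    !![c • (p + n • q), c • (v + n • w); 0, c • (p + n • q)] =
      c • (!![p, v; 0, p] + n • !![q, w; 0, q]) := by
  refine Matrix.ext fun k l => ?_
  fin_cases k <;> fin_cases l <;> simp

theorem theta_mul [CharZero F] {i j : ZMod 2} {x y : (F[X] × F[X]) × EE F} (hx : Par i x)
    (hy : Par j y) :
    theta (prd x y) = theta x * theta y + sgn (i * j) • (theta y * theta x) := by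
  have h1 := phi_prd hx hy
  have h2 := act_prd hx hy
  have h3 : phi (prd x y).1 =
      (2⁻¹ : F) • (phi x.1 * phi y.1 + sgn (i * j) • (phi y.1 * phi x.1)) := by
    rw [← h1, smul_comm, two_half]
  have h4 : (prd x y).2 = (2⁻¹ : F) • (phi x.1 * y.2 + x.2 * phi y.1 +
      sgn (i * j) • (phi y.1 * x.2 + y.2 * phi x.1)) := by
    rw [← h2, smul_comm, two_half]
  rw [theta_apply, theta_apply, theta_apply, smul_mul_smul_comm, smul_mul_smul_comm, h3, h4,
    smul_comm (sgn (i * j)), ← smul_add, ← smul_smul, mat_mul, mat_mul]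
  congr 1
  exact mat_smul _ _ _ _ _ _

theorem par_act (x y : (F[X] × F[X]) × EE F) : parE (lft x.1 y.2 + rgt x.2 y.1) =
    lft (x.1.1, - x.1.2) (parE y.2) + rgt (parE x.2) (y.1.1, - y.1.2) := by
  rw [lft_apply, rgt_apply, lft_apply, rgt_apply]
  simp only [map_add, map_smul, parE_mul, parE_ev, parE_od, parE_parE, map_neg]

theorem MM_isJordan [CharZero F] : (MM F).IsJordan := by
  refine isJordan_of_special (MM F).splitNull theta theta_injective ?_ ?_
  · intro x y
    refine Prod.ext ?_ ?_
    · change (Kan (PolyDB F)).par ((Kan (PolyDB F)).mul x.1 y.1) =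
        (Kan (PolyDB F)).mul ((Kan (PolyDB F)).par x.1) ((Kan (PolyDB F)).par y.1)
      rw [Kan_mul, Kan_mul, Kan_par, Kan_par, Kan_par]
      refine Prod.ext ?_ ?_
      · simp
      · simp
        ring
    · exact par_act x y
  · intro i j x y hx hy
    exact theta_mul (par_of_homog hx) (par_of_homog hy)

end Q4.Kantor
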