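import Pool.Agent.Q4.Kantor.Defs

/-!
# Special Jordan superalgebras
-/

namespace Q4.Kantor

variable {F : Type} [Field F]

theorem sgn_zero : sgn 0 = 1 := rfl
theorem sgn_one : sgn 1 = -1 := rfl
theorem zmod2 (i : ZMod 2) : i = 0 ∨ i = 1 := by
  revert i; decide

theorem sgn_mul_self (i : ZMod 2) : sgn i * sgn i = 1 := by
  rcases zmod2 i with rfl | rfl <;> rfl

theorem sgn_add (i j : ZMod 2) : sgn (i + j) = sgn i * sgn j := by
  revert i j; decide

/-- Sub-superalgebras (up to isomorphism) of the superalgebra `B⁺` are Jordan. -/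
theorem isJordan_of_special (J : SuperAlg F) {B : Type} [Ring B] [Module F B] (θ : J.carrier →ₗ[F] B)
    (hθ : Function.Injective θ) (heven : ∀ x y, J.par (J.mul x y) = J.mul (J.par x) (J.par y))
    (hmul : ∀ i j x y, J.Homog i x → J.Homog j y →
      θ (J.mul x y) = θ x * θ y + sgn (i * j) • (θ y * θ x)) : J.IsJordan := by
  have hpar : ∀ i j x y, J.Homog i x → J.Homog j y → J.Homog (i + j) (J.mul x y) := by
    intro i j x y hx hy
    unfold SuperSpace.Homog at *
    rw [heven, hx, hy, sgn_add]
    simp only [map_zsmul, LinearMap.smul_apply, mul_smul]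
    rw [smul_comm]
  refine ⟨heven, ?_, ?_⟩
  · intro i j x y hx hy
    apply hθ
    rw [map_zsmul, hmul i j x y hx hy, hmul j i y x hy hx, smul_add, smul_smul, mul_comm j i,
      sgn_mul_self, one_smul, add_comm]
  · intro i j k l a b c d ha hb hc hd
    apply hθ
    have hab := hpar i j a b ha hb
    have hac := hpar i k a c ha hc
    have had := hpar i l a d ha hd
    have hbc := hpar j k b c hb hc
    have hbd := hpar j l b d hb hd
    have hcd := hpar k l c d hc hd
    have habc := hpar _ _ _ _ hab hc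
    have hadc := hpar _ _ _ _ had hc
    have hbdc := hpar _ _ _ _ hbd hc
    rw [map_add, map_add, map_add, map_add, map_zsmul, map_zsmul, map_zsmul, map_zsmul,
      hmul _ _ _ _ hab hcd, hmul _ _ _ _ hac hbd, hmul _ _ _ _ had hbc, hmul _ _ _ _ habc hd,
      hmul _ _ _ _ hadc hb, hmul _ _ _ _ hbdc ha, hmul _ _ _ _ hab hc, hmul _ _ _ _ had hc,
      hmul _ _ _ _ hbd hc, hmul _ _ _ _ ha hb, hmul _ _ _ _ ha hc, hmul _ _ _ _ ha hd,
      hmul _ _ _ _ hb hc, hmul _ _ _ _ hb hd, hmul _ _ _ _ hc hd]
    generalize θ a = a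
    generalize θ b = b
    generalize θ c = c
    generalize θ d = d
    have h2 : (1 + 1 : ZMod 2) = 0 := rfl
    rcases zmod2 i with rfl | rfl <;> rcases zmod2 j with rfl | rfl <;>
      rcases zmod2 k with rfl | rfl <;> rcases zmod2 l with rfl | rfl <;>
      simp only [add_zero, zero_add, mul_zero, mul_one, h2, sgn_zero, sgn_one,
        one_smul, neg_smul] <;> noncomm_ring

/-- Jordan superalgebras are stable under subalgebras. -/
theorem IsJordan.of_injective {J J' : SuperAlg F} (hJ : J'.IsJordan) (f : J.carrier →ₗ[F] J'.carrier)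
    (hf : Function.Injective f) (hpar : ∀ x, f (J.par x) = J'.par (f x))
    (hmul : ∀ x y, f (J.mul x y) = J'.mul (f x) (f y)) : J.IsJordan := by
  have hh : ∀ i x, J.Homog i x → J'.Homog i (f x) := by
    intro i x hx
    unfold SuperSpace.Homog at *
    rw [← hpar, hx, map_zsmul]
  refine ⟨?_, ?_, ?_⟩
  · intro x y
    apply hf
    rw [hpar, hmul, hmul, hpar, hpar, hJ.even]
  · intro i j x y hx hy
    apply hf
    rw [map_zsmul, hmul, hmul]
    exact hJ.comm i j _ _ (hh _ _ hx) (hh _ _ hy)
  · intro i j k l a b c d ha hb hc hd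
    apply hf
    simp only [map_add, map_zsmul, hmul]
    exact hJ.jordan i j k l _ _ _ _ (hh _ _ ha) (hh _ _ hb) (hh _ _ hc) (hh _ _ hd)

/-- Jordan superalgebras are stable under quotients. -/
theorem IsJordan.of_surjective (h2 : (2 : F) ≠ 0) {J J' : SuperAlg F} (hJ : J.IsJordan)
    (f : J.carrier →ₗ[F] J'.carrier)
    (hf : Function.Surjective f) (hpar : ∀ x, f (J.par x) = J'.par (f x))
    (hmul : ∀ x y, f (J.mul x y) = J'.mul (f x) (f y)) : J'.IsJordan := by
  have hh : ∀ i y, J'.Homog i y → ∃ x, J.Homog i x ∧ f x = y := by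
    intro i y hy
    obtain ⟨x, rfl⟩ := hf y
    refine ⟨(2 : F)⁻¹ • (x + sgn i • J.par x), ?_, ?_⟩
    · unfold SuperSpace.Homog at *
      have h1 : sgn i • (x + sgn i • J.par x) = J.par x + sgn i • x := by
        rw [smul_add, smul_smul, sgn_mul_self, one_smul, add_comm]
      rw [map_smul, map_add, map_zsmul, J.par_par, smul_comm (sgn i), h1]
    · unfold SuperSpace.Homog at *
      rw [map_smul, map_add, map_zsmul, hpar, hy, smul_smul, sgn_mul_self, one_smul, ← two_smul F,
        smul_smul, inv_mul_cancel₀ h2, one_smul]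
  refine ⟨?_, ?_, ?_⟩
  · intro x y
    obtain ⟨x, rfl⟩ := hf x
    obtain ⟨y, rfl⟩ := hf y
    rw [← hmul, ← hpar, ← hpar, ← hpar, ← hmul, hJ.even]
  · intro i j x y hx hy
    obtain ⟨x, hx', rfl⟩ := hh i x hx
    obtain ⟨y, hy', rfl⟩ := hh j y hy
    rw [← hmul, ← hmul, ← map_zsmul, hJ.comm i j _ _ hx' hy']
  · intro i j k l a b c d ha hb hc hd
    obtain ⟨a, ha', rfl⟩ := hh i a ha
    obtain ⟨b, hb', rfl⟩ := hh j b hb
    obtain ⟨c, hc', rfl⟩ := hh k c hc
    obtain ⟨d, hd', rfl⟩ := hh l d hd
    have h := congrArg f (hJ.jordan i j k l _ _ _ _ ha' hb' hc' hd')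
    simpa only [map_add, map_zsmul, hmul] using h

variable {J : SuperAlg F}

theorem SMod.IsJordan.of_injective {M N : SMod J} (hN : N.IsJordan) (f : M.carrier →ₗ[F] N.carrier)
    (hf : Function.Injective f) (hpar : ∀ x, f (M.par x) = N.par (f x))
    (hl : ∀ x m, f (M.left x m) = N.left x (f m)) (hr : ∀ m x, f (M.right m x) = N.right (f m) x) :
    M.IsJordan := by
  refine Q4.Kantor.IsJordan.of_injective (J := M.splitNull) (J' := N.splitNull) hN
    (LinearMap.prodMap LinearMap.id f) ?_ ?_ ?_
  · intro x y hxy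
    have h1 := congrArg Prod.fst hxy
    have h2 := congrArg Prod.snd hxy
    exact Prod.ext h1 (hf h2)
  · intro x
    exact Prod.ext rfl (hpar _)
  · intro x y
    refine Prod.ext rfl ?_
    change f (M.left x.1 y.2 + M.right x.2 y.1) = N.left x.1 (f y.2) + N.right (f x.2) y.1
    rw [map_add, hl, hr]

theorem SMod.IsJordan.of_surjective (h2 : (2 : F) ≠ 0) {M N : SMod J} (hM : M.IsJordan)
    (f : M.carrier →ₗ[F] N.carrier)
    (hf : Function.Surjective f) (hpar : ∀ x, f (M.par x) = N.par (f x))
    (hl : ∀ x m, f (M.left x m) = N.left x (f m)) (hr : ∀ m x, f (M.right m x) = N.right (f m) x) :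
    N.IsJordan := by
  refine Q4.Kantor.IsJordan.of_surjective h2 (J := M.splitNull) (J' := N.splitNull) hM
    (LinearMap.prodMap LinearMap.id f) ?_ ?_ ?_
  · rintro ⟨x, m⟩
    obtain ⟨n, rfl⟩ := hf m
    exact ⟨(x, n), rfl⟩
  · intro x
    exact Prod.ext rfl (hpar _)
  · intro x y
    refine Prod.ext rfl ?_
    change f (M.left x.1 y.2 + M.right x.2 y.1) = N.left x.1 (f y.2) + N.right (f x.2) y.1
    rw [map_add, hl, hr]

/-- A graded submodule as a supermodule. -/
noncomputable def SMod.sub (M : SMod J) (S : Submodule F M.carrier) (hS : M.IsSub S) : SMod J where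
  carrier := S
  par := M.par.restrict hS.1
  par_par x := Subtype.ext (M.par_par _)
  left := LinearMap.mk₂ F (fun x m => ⟨M.left x m, hS.2.1 x m m.2⟩)
    (fun x x' y => Subtype.ext (by simp))
    (fun c x y => Subtype.ext (by simp))
    (fun x y y' => Subtype.ext (by simp))
    (fun c x y => Subtype.ext (by simp))
  right := LinearMap.mk₂ F (fun m x => ⟨M.right m x, hS.2.2 m m.2 x⟩)
    (fun x x' y => Subtype.ext (by simp))
    (fun c x y => Subtype.ext (by simp))
    (fun x y y' => Subtype.ext (by simp))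
    (fun c x y => Subtype.ext (by simp))

/-- The quotient by a graded submodule as a supermodule. -/
noncomputable def SMod.quot (M : SMod J) (S : Submodule F M.carrier) (hS : M.IsSub S) :
    SMod J where
  carrier := M.carrier ⧸ S
  par := S.mapQ S M.par hS.1
  par_par x := by
    induction x using Submodule.Quotient.induction_on with
    | H x => simp [M.par_par]
  left :=
    { toFun := fun x => S.mapQ S (M.left x) (hS.2.1 x)
      map_add' := fun x y => by
        apply LinearMap.ext
        intro m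
        induction m using Submodule.Quotient.induction_on with
        | H m => simp
      map_smul' := fun c y => by
        apply LinearMap.ext
        intro m
        induction m using Submodule.Quotient.induction_on with
        | H m => simp }
  right :=
    LinearMap.flip
    { toFun := fun x => S.mapQ S (M.right.flip x) (fun m hm => hS.2.2 m hm x)
      map_add' := fun x y => by
        apply LinearMap.ext
        intro m
        induction m using Submodule.Quotient.induction_on with
        | H m => simp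
      map_smul' := fun c y => by
        apply LinearMap.ext
        intro m
        induction m using Submodule.Quotient.induction_on with
        | H m => simp }

theorem SMod.sub_isJordan {M : SMod J} (hM : M.IsJordan) (S : Submodule F M.carrier)
    (hS : M.IsSub S) : (M.sub S hS).IsJordan :=
  hM.of_injective S.subtype Subtype.val_injective (fun _ => rfl) (fun _ _ => rfl) (fun _ _ => rfl)

theorem SMod.quot_isJordan (h2 : (2 : F) ≠ 0) {M : SMod J} (hM : M.IsJordan)
    (S : Submodule F M.carrier) (hS : M.IsSub S) : (M.quot S hS).IsJordan :=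
  hM.of_surjective h2 S.mkQ S.mkQ_surjective (fun _ => rfl) (fun _ _ => rfl) (fun _ _ => rfl)

/-- A supermodule generated by a nonzero element `n₀` has an irreducible quotient. -/
theorem exists_quot (N : SMod J) (n₀ : N.carrier) (h0 : n₀ ≠ 0)
    (hgen : ∀ S : Submodule F N.carrier, N.IsSub S → n₀ ∈ S → S = ⊤) :
    ∃ (D : Submodule F N.carrier) (hD : N.IsSub D), (N.quot D hD).IsIrreducible ∧ n₀ ∉ D := by
  have hz := zorn_le_nonempty₀ {S : Submodule F N.carrier | N.IsSub S ∧ n₀ ∉ S} ?_
    (⊥ : Submodule F N.carrier) ?_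
  · obtain ⟨D, -, hD⟩ := hz
    have hDS : N.IsSub D := hD.1.1
    have hDm : n₀ ∉ D := hD.1.2
    refine ⟨D, hDS, ⟨?_, ?_⟩, hDm⟩
    · refine ⟨⟨(Submodule.Quotient.mk n₀ : N.carrier ⧸ D), 0, ?_⟩⟩
      intro h
      exact hDm ((Submodule.Quotient.mk_eq_zero D).1 h)
    · intro S hS
      let S' : Submodule F N.carrier := Submodule.comap D.mkQ S
      have hS' : N.IsSub S' := by
        refine ⟨?_, ?_, ?_⟩
        · intro m hmm
          exact hS.1 _ hmm
        · intro x m hmm
          exact hS.2.1 x _ hmm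
        · intro m hmm x
          exact hS.2.2 _ hmm x
      have hDS' : D ≤ S' := by
        intro m hmD
        change D.mkQ m ∈ S
        have : D.mkQ m = 0 := (Submodule.Quotient.mk_eq_zero D).2 hmD
        rw [this]
        exact zero_mem S
      by_cases hmS : n₀ ∈ S'
      · right
        have := hgen S' hS' hmS
        rw [eq_top_iff]
        intro x _
        obtain ⟨y, rfl⟩ := D.mkQ_surjective x
        have hy : y ∈ S' := this ▸ Submodule.mem_top
        exact hy
      · left
        have h1 : S' ≤ D := hD.2 ⟨hS', hmS⟩ hDS'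
        rw [eq_bot_iff]
        intro x hx
        obtain ⟨y, rfl⟩ := D.mkQ_surjective x
        have hy : y ∈ D := h1 hx
        exact (Submodule.mem_bot F).2 ((Submodule.Quotient.mk_eq_zero D).2 hy)
  · intro c hc hchain y hy
    have hne : c.Nonempty := ⟨y, hy⟩
    refine ⟨sSup c, ⟨⟨?_, ?_, ?_⟩, ?_⟩, fun z hz => le_sSup hz⟩
    · intro m hmm
      rw [Submodule.mem_sSup_of_directed hne hchain.directedOn] at hmm ⊢
      obtain ⟨S, hS, hmS⟩ := hmm
      exact ⟨S, hS, (hc hS).1.1 m hmS⟩
    · intro x m hmm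
      rw [Submodule.mem_sSup_of_directed hne hchain.directedOn] at hmm ⊢
      obtain ⟨S, hS, hmS⟩ := hmm
      exact ⟨S, hS, (hc hS).1.2.1 x m hmS⟩
    · intro m hmm x
      rw [Submodule.mem_sSup_of_directed hne hchain.directedOn] at hmm ⊢
      obtain ⟨S, hS, hmS⟩ := hmm
      exact ⟨S, hS, (hc hS).1.2.2 m hmS x⟩
    · intro hmm
      rw [Submodule.mem_sSup_of_directed hne hchain.directedOn] at hmm
      obtain ⟨S, hS, hmS⟩ := hmm
      exact (hc hS).2 hmS
  · refine ⟨⟨?_, ?_, ?_⟩, ?_⟩
    · intro m hmm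
      rw [Submodule.mem_bot] at hmm ⊢
      rw [hmm, map_zero]
    · intro x m hmm
      rw [Submodule.mem_bot] at hmm ⊢
      rw [hmm, map_zero]
    · intro m hmm x
      rw [Submodule.mem_bot] at hmm ⊢
      rw [hmm, map_zero, LinearMap.zero_apply]
    · intro hmm
      exact h0 ((Submodule.mem_bot F).1 hmm)

/-- Every nonzero element `m₀` of a supermodule `M` gives a nonzero element of an irreducible
subquotient of `M`. -/
theorem exists_irreducible (M : SMod J) (m₀ : M.carrier) (h0 : m₀ ≠ 0) :
    ∃ (N Q : SMod J) (i : N.carrier →ₗ[F] M.carrier) (π : N.carrier →ₗ[F] Q.carrier)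
      (n₀ : N.carrier), Function.Injective i ∧ Function.Surjective π ∧ i n₀ = m₀ ∧ π n₀ ≠ 0 ∧
      Q.IsIrreducible ∧
      (∀ n, i (N.par n) = M.par (i n)) ∧ (∀ x n, i (N.left x n) = M.left x (i n)) ∧
      (∀ n x, i (N.right n x) = M.right (i n) x) ∧
      (∀ n, π (N.par n) = Q.par (π n)) ∧ (∀ x n, π (N.left x n) = Q.left x (π n)) ∧
      (∀ n x, π (N.right n x) = Q.right (π n) x) := by
  -- the graded submodule generated by `m₀`
  let C : Submodule F M.carrier := sInf {S | M.IsSub S ∧ m₀ ∈ S}
  have hC : M.IsSub C := by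
    refine ⟨?_, ?_, ?_⟩
    · intro m hm
      rw [Submodule.mem_sInf] at hm ⊢
      exact fun S hS => hS.1.1 m (hm S hS)
    · intro x m hm
      rw [Submodule.mem_sInf] at hm ⊢
      exact fun S hS => hS.1.2.1 x m (hm S hS)
    · intro m hm x
      rw [Submodule.mem_sInf] at hm ⊢
      exact fun S hS => hS.1.2.2 m (hm S hS) x
  have hm : m₀ ∈ C := Submodule.mem_sInf.2 fun S hS => hS.2
  obtain ⟨D, hD, hirr, hn⟩ := exists_quot (M.sub C hC) ⟨m₀, hm⟩
    (fun h => h0 (congrArg Subtype.val h)) (by
      intro S hS hmS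
      have h1 : M.IsSub (S.map C.subtype) := by
        refine ⟨?_, ?_, ?_⟩
        · rintro _ ⟨m, hmm, rfl⟩
          exact ⟨_, hS.1 m hmm, rfl⟩
        · rintro x _ ⟨m, hmm, rfl⟩
          exact ⟨_, hS.2.1 x m hmm, rfl⟩
        · rintro _ ⟨m, hmm, rfl⟩ x
          exact ⟨_, hS.2.2 m hmm x, rfl⟩
      have h2 : C ≤ S.map C.subtype := sInf_le ⟨h1, ⟨_, hmS, rfl⟩⟩
      rw [eq_top_iff]
      intro x _
      obtain ⟨y, hy, hyx⟩ := h2 x.2
      have : y = x := Subtype.ext hyx
      rwa [← this])
  refine ⟨M.sub C hC, (M.sub C hC).quot D hD, C.subtype, D.mkQ, ⟨m₀, hm⟩, Subtype.val_injective,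
    D.mkQ_surjective, rfl, ?_, hirr, fun _ => rfl, fun _ _ => rfl, fun _ _ => rfl, fun _ => rfl,
    fun _ _ => rfl, fun _ _ => rfl⟩
  intro h
  exact hn ((Submodule.Quotient.mk_eq_zero D).1 h)

end Q4.Kantor
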