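import Mathlib

/-!
# Dot-bracket superalgebras, Kantor doubles and Jordan supermodules

All superspaces are over a field `F` of characteristic different from `2`; a `ℤ/2`-grading is
encoded by its parity automorphism `par`, which is `1` on even and `-1` on odd elements.
Structures carry only data; all axioms are in the predicates.
-/

namespace Q4.JSuper

/-- Data of a superspace over `F`: a vector space with a map `par`. -/
structure Space (F : Type) [Field F] : Type 1 where
  /-- the underlying vector space -/
  carrier : Type
  [addCommGroup : AddCommGroup carrier]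
  [module : Module F carrier]
  /-- the parity automorphism -/
  par : carrier → carrier

attribute [instance] Space.addCommGroup Space.module

/-- The sign `(-1)^i` for a parity `i ∈ ℤ/2`. -/
def sgn (i : ZMod 2) : ℤ := if i = 0 then 1 else -1

variable {F : Type} [Field F]

/-- `V` is a superspace (characteristic `≠ 2`): `par` is a linear involution. The eigenspaces
for `1` and `-1` are the even and the odd part. -/
structure Space.IsSuper (V : Space F) : Prop where
  add : ∀ x y, V.par (x + y) = V.par x + V.par y
  smul : ∀ (c : F) x, V.par (c • x) = c • V.par x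
  invol : ∀ x, V.par (V.par x) = x

/-- `x` is homogeneous of parity `i`. -/
def Space.Homog (V : Space F) (i : ZMod 2) (x : V.carrier) : Prop := V.par x = sgn i • x

/-- `f` is bilinear and even. -/
structure EvenBilin (U V W : Space F) (f : U.carrier → V.carrier → W.carrier) : Prop where
  add_left : ∀ x x' y, f (x + x') y = f x y + f x' y
  add_right : ∀ x y y', f x (y + y') = f x y + f x y'
  smul_left : ∀ (c : F) x y, f (c • x) y = c • f x y
  smul_right : ∀ (c : F) x y, f x (c • y) = c • f x y
  even : ∀ x y, W.par (f x y) = f (U.par x) (V.par y)

/-- Data of a superalgebra. -/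
structure Alg (F : Type) [Field F] extends Space F where
  /-- the product -/
  mul : carrier → carrier → carrier

/-- `J` is a Jordan superalgebra (in characteristic `≠ 2, 3`): the product is bilinear, even,
supercommutative and satisfies the linearised Jordan superidentity. -/
structure Alg.IsJordan (J : Alg F) : Prop where
  super : J.IsSuper
  bilin : EvenBilin J.toSpace J.toSpace J.toSpace J.mul
  comm : ∀ i j x y, J.Homog i x → J.Homog j y → J.mul x y = sgn (i * j) • J.mul y x
  jordan : ∀ i j k l a b c d, J.Homog i a → J.Homog j b → J.Homog k c → J.Homog l d →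
    J.mul (J.mul a b) (J.mul c d) + sgn (j * k) • J.mul (J.mul a c) (J.mul b d) +
      sgn (l * (j + k)) • J.mul (J.mul a d) (J.mul b c) =
    J.mul (J.mul (J.mul a b) c) d + sgn (l * (j + k) + j * k) • J.mul (J.mul (J.mul a d) c) b +
      sgn (i * (j + k + l) + k * l) • J.mul (J.mul (J.mul b d) c) a

/-- Data of a superspace with a dot product and a bracket. -/
structure DB (F : Type) [Field F] extends Space F where
  /-- the product `a · b` -/
  dot : carrier → carrier → carrier
  /-- the bracket `{a, b}` -/
  br : carrier → carrier → carrier

/-- `A` is a dot-bracket superalgebra: both products are bilinear and even, the dot product is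
associative and supercommutative, the bracket is super-anticommutative. -/
structure DB.IsDotBracket (A : DB F) : Prop where
  super : A.IsSuper
  dot_bilin : EvenBilin A.toSpace A.toSpace A.toSpace A.dot
  br_bilin : EvenBilin A.toSpace A.toSpace A.toSpace A.br
  dot_assoc : ∀ a b c, A.dot (A.dot a b) c = A.dot a (A.dot b c)
  dot_comm : ∀ i j a b, A.Homog i a → A.Homog j b → A.dot a b = sgn (i * j) • A.dot b a
  br_comm : ∀ i j a b, A.Homog i a → A.Homog j b → A.br a b = -(sgn (i * j) • A.br b a)

/-- The superspace `V ⊕ V̄`; the element `a + b̄` is written `(a, b)`, so that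
`par (a, b) = (par a, - par b)`. -/
def Space.dbl (V : Space F) : Space F where
  carrier := V.carrier × V.carrier
  par x := (V.par x.1, -V.par x.2)

/-- The superspace `V ⊕ W`. -/
def Space.prod (V W : Space F) : Space F where
  carrier := V.carrier × W.carrier
  par x := (V.par x.1, W.par x.2)

/-- The formula of the Kantor double:
`(a + a'¯) * (b + b'¯) = (a · b + {a', par b'}) + (a · b' + a' · par b)¯`. -/
def kanMul {U V W : Space F} (dot br : U.carrier → V.carrier → W.carrier)
    (x : U.dbl.carrier) (y : V.dbl.carrier) : W.dbl.carrier :=
  (dot x.1 y.1 + br x.2 (V.par y.2), dot x.1 y.2 + dot x.2 (V.par y.1))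

/-- The Kantor double `Kan(A) = A ⊕ Ā`. -/
def Kan (A : DB F) : Alg F where
  toSpace := A.toSpace.dbl
  mul := kanMul A.dot A.br

/-- `A` is a dot-bracket superalgebra with a Jordan bracket. -/
def DB.IsJordanBracket (A : DB F) : Prop := A.IsDotBracket ∧ (Kan A).IsJordan

/-- `e` is an identity element of `(A, ·)`. -/
def DB.IsOne (A : DB F) (e : A.carrier) : Prop := ∀ a, A.dot e a = a ∧ A.dot a e = a

/-- `A` is simple: it is nonzero and its only ideals (graded or not) for the dot product which are
closed under bracketing with `A` are `0` and `A`. -/
def DB.IsSimple (A : DB F) : Prop :=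
  Nontrivial A.carrier ∧ ∀ I : Submodule F A.carrier,
    (∀ a ∈ I, ∀ b, A.dot a b ∈ I ∧ A.dot b a ∈ I ∧ A.br a b ∈ I ∧ A.br b a ∈ I) →
      I = ⊥ ∨ I = ⊤

/-- Data of a superspace with a left and a right action of `J`. -/
structure Mod (J : Alg F) extends Space F where
  /-- the left action -/
  left : J.carrier → carrier → carrier
  /-- the right action -/
  right : carrier → J.carrier → carrier

/-- The product of a split null extension, `(x, m)(y, n) = (xy, x n + m y)`. -/
def nullMul {U V : Space F} (mul : U.carrier → U.carrier → U.carrier)
    (left : U.carrier → V.carrier → V.carrier) (right : V.carrier → U.carrier → V.carrier)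
    (x y : (U.prod V).carrier) : (U.prod V).carrier :=
  (mul x.1 y.1, left x.1 y.2 + right x.2 y.1)

/-- The split null extension `J ⊕ M`. -/
def Mod.splitNull {J : Alg F} (M : Mod J) : Alg F where
  toSpace := J.toSpace.prod M.toSpace
  mul := nullMul J.mul M.left M.right

/-- `M` is a Jordan supermodule: the actions are bilinear and even, and the split null extension
is a Jordan superalgebra. -/
structure Mod.IsJordan {J : Alg F} (M : Mod J) : Prop where
  left_bilin : EvenBilin J.toSpace M.toSpace M.toSpace M.left
  right_bilin : EvenBilin M.toSpace J.toSpace M.toSpace M.right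
  jordan : M.splitNull.IsJordan

/-- `S` is a graded submodule of `M`. -/
def Mod.IsSub {J : Alg F} (M : Mod J) (S : Submodule F M.carrier) : Prop :=
  ∀ m ∈ S, M.par m ∈ S ∧ ∀ x, M.left x m ∈ S ∧ M.right m x ∈ S

/-- `M` is irreducible: it is nonzero and its only graded submodules are `0` and `M`. -/
def Mod.IsIrreducible {J : Alg F} (M : Mod J) : Prop :=
  Nontrivial M.carrier ∧ ∀ S : Submodule F M.carrier, M.IsSub S → S = ⊥ ∨ S = ⊤

/-- The element `x` of `J` acts as the identity map on `M`. -/
def Mod.ActsAsOne {J : Alg F} (M : Mod J) (x : J.carrier) : Prop :=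
  ∀ m, M.left x m = m ∧ M.right m x = m

/-- There is a linear bijection from `M` to `N` which commutes with the right action (this holds
if `M` and `N` are isomorphic, or isomorphic up to a change of parity). -/
def Mod.RightIso {J : Alg F} (M N : Mod J) : Prop :=
  ∃ f : M.carrier → N.carrier, Function.Bijective f ∧ (∀ x y, f (x + y) = f x + f y) ∧
    (∀ (c : F) x, f (c • x) = c • f x) ∧ ∀ m x, f (M.right m x) = N.right (f m) x

/-- Data of a superspace with left and right dot and bracket actions of `A`. -/
structure DBMod (A : DB F) extends Space F where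
  /-- `a · v` -/
  dotL : A.carrier → carrier → carrier
  /-- `v · a` -/
  dotR : carrier → A.carrier → carrier
  /-- `{a, v}` -/
  brL : A.carrier → carrier → carrier
  /-- `{v, a}` -/
  brR : carrier → A.carrier → carrier

/-- The split null extension `A ⊕ V`. -/
def DBMod.splitNull {A : DB F} (V : DBMod A) : DB F where
  toSpace := A.toSpace.prod V.toSpace
  dot := nullMul A.dot V.dotL V.dotR
  br := nullMul A.br V.brL V.brR

/-- `V` is a dot-bracket supermodule with a Jordan bracket over `A`: the actions are bilinear and
even, and the split null extension `A ⊕ V` is a dot-bracket superalgebra with a Jordan bracket. -/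
structure DBMod.IsJordanBracket {A : DB F} (V : DBMod A) : Prop where
  dotL_bilin : EvenBilin A.toSpace V.toSpace V.toSpace V.dotL
  dotR_bilin : EvenBilin V.toSpace A.toSpace V.toSpace V.dotR
  brL_bilin : EvenBilin A.toSpace V.toSpace V.toSpace V.brL
  brR_bilin : EvenBilin V.toSpace A.toSpace V.toSpace V.brR
  jordan : V.splitNull.IsJordanBracket

/-- The `Kan(A)`-supermodule `Kan(V) = V ⊕ V̄`, given by the same formulas as the Kantor
double. -/
def DBMod.Kan {A : DB F} (V : DBMod A) : Mod (Kan A) where
  toSpace := V.toSpace.dbl
  left := kanMul V.dotL V.brL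
  right := kanMul V.dotR V.brR

end Q4.JSuper
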